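import Mathlib

/-!
# Unit fraction representations of 1 whose denominators form few blocks

`IsBlockRep r S`: the reciprocals of the members of `S` add up to `1` and `S` is a union of `r`
blocks of consecutive integers. We show that the largest denominator can be as large
as `r ^ (c * 2 ^ r)` for every `c < 1 / 4` and all large `r`, and that it is never maximised
by the representations built from Sylvester's sequence if `r` is at least `2`.

The construction starts with one long block from `a` to `b` whose sum is just below `1`. The rest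
is a fraction `P / D` with `D = b!` and `D / P` at least `b + 1`. It is expanded by single
denominators. A greedy step replaces `P / D` by `m / (D * y)` with `m < P` and squares the ratio.
After some greedy steps the ratio is much larger than `b!`, and then there is enough freedom for
steps which halve the numerator: among the divisors `g` of `b!` there is always one for
which `D / g` modulo `P` is at least `P / 2` (lemma `exists_divisor`), and the
denominator `g * y` with `P * y = D / g + m`, `m` at most `P / 2`, has the wanted effect. So the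
number of steps is only about the logarithm of `b!`.
-/

namespace Pool.Agent.Results.MP_5e6778_nt.BlockGrowth

open Finset

/-- `S` is the set of denominators of an `r`-block representation of `1`: the reciprocals of its
members add up to `1` and it is the union of `r` blocks, nonempty sets of consecutive
positive integers. -/
def IsBlockRep (r : ℕ) (S : Finset ℕ) : Prop :=
  (∃ a b : Fin r → ℕ, (∀ i, 0 < a i ∧ a i ≤ b i) ∧
    S = Finset.univ.biUnion (fun i => Finset.Icc (a i) (b i))) ∧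
  ∑ x ∈ S, (1 : ℚ) / x = 1

/-- Sylvester's sequence `s 1 = 2`, `s 2 = 3`, `s 3 = 7`, `s 4 = 43`, ... (the value `s 0` is not used). -/
def s : ℕ → ℕ
  | 0 => 1
  | 1 => 2
  | (n + 2) => s (n + 1) ^ 2 - s (n + 1) + 1

/-! ### The divisor lemma -/

lemma exists_divisor {G k D P : ℕ} (hk : 2 ^ k ∣ G)
    (hp : ∀ p : ℕ, p.Prime → p ∣ G → p ≤ 2 ^ (k + 1))
    (hG0 : 0 < G) (hGD : G ∣ D) (hP : 0 < P) (hPG : P ≤ G) (hnd : ¬ P ∣ D / G) :
    ∃ g, g ∣ G ∧ P ≤ 2 * (D / g % P) := by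
  by_contra hcon
  push Not at hcon
  have hmul : ∀ q g : ℕ, 0 < q → q * g ∣ G → D / g = q * (D / (q * g)) := by
    intro q g hq hqg
    obtain ⟨t, ht⟩ := hqg.trans hGD
    have hg : 0 < g := by
      rcases Nat.eq_zero_or_pos g with h | h
      · subst h
        simp at hqg
        omega
      · exact h
    rw [ht, Nat.mul_div_cancel_left _ (Nat.mul_pos hq hg),
      show q * g * t = g * (q * t) by ring, Nat.mul_div_cancel_left _ hg]
  have hstep : ∀ q g : ℕ, 0 < q → q * g ∣ G → q * (D / (q * g) % P) < P →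
      D / g % P = q * (D / (q * g) % P) := by
    intro q g hq hqg hlt
    rw [hmul q g hq hqg, ← Nat.mul_mod_mod, Nat.mod_eq_of_lt hlt]
  have claim1 : ∀ j g : ℕ, 2 ^ j * g ∣ G → D / g % P = 2 ^ j * (D / (2 ^ j * g) % P) := by
    intro j
    induction j with
    | zero => intro g _; simp
    | succ j ih =>
      intro g hg
      have h1 : 2 * (2 ^ j * g) ∣ G := by
        have : 2 * (2 ^ j * g) = 2 ^ (j + 1) * g := by ring
        rw [this]; exact hg
      have h2 : 2 ^ j * g ∣ G := (Dvd.intro_left 2 rfl).trans h1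
      rw [ih g h2, hstep 2 (2 ^ j * g) (by norm_num) h1 (hcon _ h1)]
      rw [show 2 * (2 ^ j * g) = 2 ^ (j + 1) * g by ring]
      ring
  have claim2 : ∀ g : ℕ, 2 ^ k * g ∣ G → 2 ^ (k + 1) * (D / (2 ^ k * g) % P) < P := by
    intro g hg
    have h1 := hcon g ((Dvd.intro_left (2 ^ k) rfl).trans hg)
    rw [claim1 k g hg] at h1
    calc 2 ^ (k + 1) * (D / (2 ^ k * g) % P) = 2 * (2 ^ k * (D / (2 ^ k * g) % P)) := by ring
      _ < P := h1
  have claim3 : ∀ d : ℕ, 2 ^ k * d ∣ G → D / 2 ^ k % P = d * (D / (2 ^ k * d) % P) := by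
    intro d
    induction d using induction_on_primes with
    | zero =>
      intro h
      simp at h
      omega
    | one => intro _; simp
    | prime_mul p a hpp ih =>
      intro h
      have h1 : p * (2 ^ k * a) ∣ G := by
        have : p * (2 ^ k * a) = 2 ^ k * (p * a) := by ring
        rw [this]; exact h
      have h2 : 2 ^ k * a ∣ G := (Dvd.intro_left p rfl).trans h1
      have h3 : p ∣ G := (Dvd.intro _ rfl).trans h1
      have h4 := claim2 (p * a) h
      rw [ih h2, hstep p (2 ^ k * a) hpp.pos h1]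
      · rw [show p * (2 ^ k * a) = 2 ^ k * (p * a) by ring]
        ring
      · rw [show p * (2 ^ k * a) = 2 ^ k * (p * a) by ring]
        exact lt_of_le_of_lt (Nat.mul_le_mul_right _ (hp p hpp h3)) h4
  obtain ⟨d, hd⟩ := hk
  have h5 := claim3 d (by rw [hd])
  have h6 := claim1 k 1 (by rw [mul_one, hd]; exact Dvd.intro _ rfl)
  rw [mul_one, h5, ← hd, Nat.div_one, ← mul_assoc, ← hd] at h6
  have h7 : 0 < D / G % P := Nat.pos_of_ne_zero (fun h => hnd (Nat.dvd_of_mod_eq_zero h))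
  have h8 : D % P < P := Nat.mod_lt _ hP
  have h9 : G * 1 ≤ G * (D / G % P) := Nat.mul_le_mul_left _ h7
  omega

/-! ### Expansions -/

/-- `P / D` is a sum of `n` distinct unit fractions whose denominators are at least `D / P`, one of
them at least `B`. -/
def Exp (P D n : ℕ) (B : ℝ) : Prop :=
  ∃ T : Finset ℕ, T.card = n ∧ (∀ x ∈ T, D ≤ P * x) ∧ ∑ x ∈ T, (1 : ℚ) / x = (P : ℚ) / D ∧
    ∃ x ∈ T, B ≤ (x : ℝ)

lemma Exp.mono {P D n : ℕ} {B B' : ℝ} (h : Exp P D n B) (hB : B' ≤ B) : Exp P D n B' := by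
  obtain ⟨T, h1, h2, h3, x, h4, h5⟩ := h
  exact ⟨T, h1, h2, h3, x, h4, hB.trans h5⟩

lemma unit_expand : ∀ n N : ℕ, 2 ≤ N → ∃ T : Finset ℕ, T.card = n + 1 ∧ (∀ x ∈ T, N ≤ x) ∧
    ∑ x ∈ T, (1 : ℚ) / x = 1 / N ∧ ∃ x ∈ T, N ^ (2 ^ n) ≤ x := by
  intro n
  induction n with
  | zero =>
    intro N hN
    exact ⟨{N}, by simp, by simp, by simp, N, by simp, by simp⟩
  | succ n ih =>
    intro N hN
    obtain ⟨T, h1, h2, h3, x, h4, h5⟩ := ih (N * (N + 1)) (by nlinarith)
    have hnot : N + 1 ∉ T := by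
      intro h
      have := h2 _ h
      nlinarith
    refine ⟨insert (N + 1) T, ?_, ?_, ?_, x, Finset.mem_insert_of_mem h4, ?_⟩
    · rw [Finset.card_insert_of_notMem hnot, h1]
    · intro z hz
      rcases Finset.mem_insert.1 hz with h | h
      · omega
      · have := h2 z h
        nlinarith
    · rw [Finset.sum_insert hnot, h3]
      have hN' : (N : ℚ) ≠ 0 := by
        have : 0 < N := by omega
        positivity
      have hN'' : (N : ℚ) + 1 ≠ 0 := by positivity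
      push_cast
      field_simp
    · refine le_trans ?_ h5
      rw [pow_succ, mul_comm (2 ^ n) 2, pow_mul]
      exact Nat.pow_le_pow_left (by nlinarith) _

lemma exp_of_dvd {P D : ℕ} (n : ℕ) (hP : 0 < P) (hd : P ∣ D) (h2 : 2 * P ≤ D) :
    Exp P D (n + 1) (((D : ℝ) / P) ^ (2 ^ n)) := by
  obtain ⟨N, rfl⟩ := hd
  have hN : 2 ≤ N := by
    by_contra h
    have : N ≤ 1 := by omega
    have : P * N ≤ P * 1 := Nat.mul_le_mul_left _ this
    omega
  obtain ⟨T, h1, h2, h3, x, h4, h5⟩ := unit_expand n N hN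
  have hP' : (P : ℚ) ≠ 0 := by positivity
  have hP'' : (P : ℝ) ≠ 0 := by positivity
  refine ⟨T, h1, fun z hz => Nat.mul_le_mul_left _ (h2 z hz), ?_, x, h4, ?_⟩
  · rw [h3]
    push_cast
    have : (N : ℚ) ≠ 0 := by
      have : 0 < N := by omega
      positivity
    field_simp
  · push_cast
    rw [mul_div_cancel_left₀ _ hP'']
    exact_mod_cast h5

lemma exp_step {P D g m y n : ℕ} {B : ℝ} (hg : g ∣ D) (hD : 0 < D) (hm : 0 < m) (hmP : m ≤ P)
    (hy : P * y = D / g + m) (hgm : g * m < D) (h : Exp m (D * y) n B) : Exp P D (n + 1) B := by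
  obtain ⟨T, h1, h2, h3, x, h4, h5⟩ := h
  obtain ⟨e, rfl⟩ := hg
  have hg0 : 0 < g := Nat.pos_of_ne_zero (by rintro rfl; simp at hD)
  have he0 : 0 < e := Nat.pos_of_ne_zero (by rintro rfl; simp at hD)
  rw [Nat.mul_div_cancel_left _ hg0] at hy
  have hy0 : 0 < y := Nat.pos_of_ne_zero (by rintro rfl; simp at hy; omega)
  have hP0 : 0 < P := by omega
  have hnot : g * y ∉ T := by
    intro hx
    have h6 := h2 _ hx
    have h7 : (g * m) * y < (g * e) * y := Nat.mul_lt_mul_of_pos_right hgm hy0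
    have h8 : m * (g * y) = (g * m) * y := by ring
    omega
  refine ⟨insert (g * y) T, ?_, ?_, ?_, x, Finset.mem_insert_of_mem h4, h5⟩
  · rw [Finset.card_insert_of_notMem hnot, h1]
  · intro z hz
    rcases Finset.mem_insert.1 hz with h | h
    · subst h
      calc g * e ≤ g * (e + m) := Nat.mul_le_mul_left _ (by omega)
        _ = g * (P * y) := by rw [hy]
        _ = P * (g * y) := by ring
    · calc g * e = g * e * 1 := by ring
        _ ≤ g * e * y := Nat.mul_le_mul_left _ hy0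
        _ ≤ m * z := h2 z h
        _ ≤ P * z := Nat.mul_le_mul_right _ hmP
  · rw [Finset.sum_insert hnot, h3]
    have hgq : (g : ℚ) ≠ 0 := by positivity
    have heq : (e : ℚ) ≠ 0 := by positivity
    have hyq : (y : ℚ) ≠ 0 := by positivity
    have hyy : (P : ℚ) * y = e + m := by exact_mod_cast hy
    push_cast
    field_simp
    linarith

/-- Numerator halving steps. -/
lemma phaseB {G k : ℕ} (hk : 2 ^ k ∣ G) (hp : ∀ p : ℕ, p.Prime → p ∣ G → p ≤ 2 ^ (k + 1))
    (hG : 2 ≤ G) : ∀ n P D : ℕ, 0 < P → G ∣ D → P ≤ G → P ≤ 2 ^ n → G ^ 2 * P ≤ D →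
    Exp P D (n + 1) (((D : ℝ) / (P * G)) ^ (2 ^ n)) := by
  intro n
  induction n with
  | zero =>
    intro P D hP hGD hPG hPn hD
    have hP1 : P = 1 := by simp at hPn; omega
    subst hP1
    have h1 : 2 * 1 ≤ D := by nlinarith
    refine (exp_of_dvd 0 hP (one_dvd _) h1).mono ?_
    apply pow_le_pow_left₀ (by positivity)
    apply div_le_div_of_nonneg_left (by positivity) (by norm_num)
    have : (1 : ℝ) ≤ G := by exact_mod_cast (by omega : 1 ≤ G)
    nlinarith
  | succ n ih =>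
    intro P D hP hGD hPG hPn hD
    have hG0 : 0 < G := by omega
    have hPR : (0 : ℝ) < P := by exact_mod_cast hP
    have hGR : (2 : ℝ) ≤ G := by exact_mod_cast hG
    have hGG : 2 * P ≤ D := by nlinarith
    by_cases hd : P ∣ D
    · refine (exp_of_dvd (n + 1) hP hd hGG).mono ?_
      apply pow_le_pow_left₀ (by positivity)
      apply div_le_div_of_nonneg_left (by positivity) hPR
      nlinarith
    · have hnd : ¬ P ∣ D / G := fun h => hd (h.trans (Nat.div_dvd_of_dvd hGD))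
      obtain ⟨g, hgG, hg⟩ := exists_divisor hk hp hG0 hGD hP hPG hnd
      have hgD : g ∣ D := hgG.trans hGD
      have hg0 : 0 < g := Nat.pos_of_dvd_of_pos hgG hG0
      have hgle : g ≤ G := Nat.le_of_dvd hG0 hgG
      have hr : D / g % P < P := Nat.mod_lt _ hP
      obtain ⟨m, hm⟩ : ∃ m, m = P - D / g % P := ⟨_, rfl⟩
      have hm0 : 0 < m := by omega
      have h2m : 2 * m ≤ P := by omega
      have hdv : P ∣ D / g + m := by
        have h1 := Nat.div_add_mod (D / g) P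
        refine ⟨D / g / P + 1, ?_⟩
        have h2 : P * (D / g / P + 1) = P * (D / g / P) + P := by ring
        omega
      obtain ⟨y, hy⟩ := hdv
      have hy0 : 0 < y := Nat.pos_of_ne_zero (by rintro rfl; simp at hy; omega)
      have hDy : D ≤ D * y := Nat.le_mul_of_pos_right _ hy0
      have hG2m : G ^ 2 * m ≤ G ^ 2 * P := Nat.mul_le_mul_left _ (by omega)
      have hD0 : 0 < D := by nlinarith
      have hgm : g * m < D := by
        have h1 : g * m ≤ G * P := Nat.mul_le_mul hgle (by omega)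
        have h2 : G * P < G ^ 2 * P := by
          have : G < G ^ 2 := by nlinarith
          exact Nat.mul_lt_mul_of_pos_right this hP
        omega
      have h2n : 2 ^ (n + 1) = 2 * 2 ^ n := by ring
      have key := ih m (D * y) hm0 (hGD.mul_right y) (by omega) (by omega) (by omega)
      refine exp_step hgD hD0 hm0 (by omega) hy.symm hgm (key.mono ?_)
      rw [pow_succ 2 n, mul_comm (2 ^ n) 2, pow_mul]
      apply pow_le_pow_left₀ (by positivity)
      have hmR : (0 : ℝ) < m := by exact_mod_cast hm0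
      have hDR : (0 : ℝ) < D := by exact_mod_cast hD0
      have hyR : (D : ℝ) ≤ G * (P * y) := by
        have h1 : D ≤ G * (P * y) := by
          calc D = g * (D / g) := (Nat.mul_div_cancel' hgD).symm
            _ ≤ G * (D / g + m) := Nat.mul_le_mul hgle (by omega)
            _ = G * (P * y) := by rw [hy]
        exact_mod_cast h1
      have hmP : (m : ℝ) ≤ P := by exact_mod_cast (by omega : m ≤ P)
      push_cast
      rw [div_pow, div_le_div_iff₀ (by positivity) (by positivity)]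
      have hG0R : (0 : ℝ) < G := by linarith
      calc (D : ℝ) ^ 2 * (m * G) = D * (m * G) * D := by ring
        _ ≤ D * (m * G) * (G * (P * y)) := by gcongr
        _ ≤ D * (P * G) * (G * (P * y)) := by gcongr
        _ = D * y * (P * G) ^ 2 := by ring

/-- Greedy steps, followed by numerator halving steps. -/
lemma phaseA {G k : ℕ} (hk : 2 ^ k ∣ G) (hp : ∀ p : ℕ, p.Prime → p ∣ G → p ≤ 2 ^ (k + 1))
    (hG : 2 ≤ G) (n : ℕ) : ∀ (i P D : ℕ) (Y : ℝ), 0 < P → G ∣ D → P ≤ G → P ≤ 2 ^ n → 2 ≤ Y →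
    Y * P ≤ D → (G : ℝ) ^ 2 ≤ Y ^ (2 ^ i) →
    Exp P D (i + n + 1) ((Y ^ (2 ^ i) / G) ^ (2 ^ n)) := by
  intro i
  induction i with
  | zero =>
    intro P D Y hP hGD hPG hPn hY hYD hGY
    have hPR : (0 : ℝ) < P := by exact_mod_cast hP
    have hGR : (2 : ℝ) ≤ G := by exact_mod_cast hG
    rw [pow_zero, pow_one] at hGY
    have h1 : G ^ 2 * P ≤ D := by
      have : (G : ℝ) ^ 2 * P ≤ D := le_trans (by gcongr) hYD
      exact_mod_cast this
    have key := phaseB hk hp hG n P D hP hGD hPG hPn h1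
    rw [zero_add]
    refine key.mono ?_
    apply pow_le_pow_left₀ (by positivity)
    rw [pow_zero, pow_one, div_le_div_iff₀ (by linarith) (by positivity)]
    nlinarith
  | succ i ih =>
    intro P D Y hP hGD hPG hPn hY hYD hGY
    have hPR : (0 : ℝ) < P := by exact_mod_cast hP
    have hGR : (2 : ℝ) ≤ G := by exact_mod_cast hG
    have h2P : 2 * P ≤ D := by
      have : (2 : ℝ) * P ≤ D := le_trans (by gcongr) hYD
      exact_mod_cast this
    by_cases hd : P ∣ D
    · refine (exp_of_dvd (i + 1 + n) hP hd h2P).mono ?_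
      rw [pow_add 2 (i + 1) n, pow_mul]
      apply pow_le_pow_left₀ (by positivity)
      have h1 : Y ^ 2 ^ (i + 1) / (G : ℝ) ≤ Y ^ 2 ^ (i + 1) :=
        div_le_self (by positivity) (by linarith)
      refine h1.trans (pow_le_pow_left₀ (by linarith) ?_ _)
      rw [le_div_iff₀ hPR]
      exact hYD
    · have hr : D % P < P := Nat.mod_lt _ hP
      have hr0 : 0 < D % P := Nat.pos_of_ne_zero (fun h => hd (Nat.dvd_of_mod_eq_zero h))
      obtain ⟨m, hm⟩ : ∃ m, m = P - D % P := ⟨_, rfl⟩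
      have hm0 : 0 < m := by omega
      have hmP : m ≤ P := by omega
      have hdv : P ∣ D / 1 + m := by
        have h1 := Nat.div_add_mod D P
        refine ⟨D / P + 1, ?_⟩
        have h2 : P * (D / P + 1) = P * (D / P) + P := by ring
        rw [Nat.div_one]
        omega
      obtain ⟨y, hy⟩ := hdv
      have hy0 : 0 < y := Nat.pos_of_ne_zero (by rintro rfl; simp at hy; omega)
      have hD0 : 0 < D := by omega
      have hmPR : (m : ℝ) ≤ P := by exact_mod_cast hmP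
      have hyR : (D : ℝ) ≤ P * y := by
        have : D ≤ P * y := by rw [← hy, Nat.div_one]; omega
        exact_mod_cast this
      have hYy : Y ≤ y := by
        have h1 : Y * P ≤ P * y := hYD.trans hyR
        have h2 : Y * P ≤ y * P := by linarith
        exact le_of_mul_le_mul_right h2 hPR
      have key := ih m (D * y) (Y ^ 2) hm0 (hGD.mul_right y) (by omega) (by omega)
        (by nlinarith) (by
          push_cast
          have h1 : Y ^ 2 * (m : ℝ) ≤ Y ^ 2 * P := by gcongr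
          calc Y ^ 2 * (m : ℝ) ≤ Y ^ 2 * P := h1
            _ = (Y * P) * Y := by ring
            _ ≤ D * y := by gcongr) (by
          rw [← pow_mul, ← pow_succ']
          exact hGY)
      rw [← pow_mul, ← pow_succ'] at key
      have h3 : i + 1 + n + 1 = (i + n + 1) + 1 := by ring
      rw [h3]
      exact exp_step (one_dvd D) hD0 hm0 hmP hy.symm (by omega) key

/-! ### The first block -/

lemma first_block {a : ℕ} (ha : 2 ≤ a) : ∃ b, a ≤ b ∧ b + 1 ≤ 4 * a ∧
    ∑ i ∈ Icc a b, (1 : ℚ) / i < 1 ∧ 1 ≤ ∑ i ∈ Icc a (b + 1), (1 : ℚ) / i := by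
  have hex : 1 ≤ ∑ i ∈ Icc a (4 * a), (1 : ℚ) / i := by
    have ha0 : (0 : ℚ) < a := by
      have : 0 < a := by omega
      exact_mod_cast this
    have h1 : ∑ i ∈ Icc a (2 * a), (1 : ℚ) / (2 * a) ≤ ∑ i ∈ Icc a (2 * a), (1 : ℚ) / i := by
      apply Finset.sum_le_sum
      intro i hi
      rw [Finset.mem_Icc] at hi
      have hi0 : (0 : ℚ) < i := by
        have : 0 < i := by omega
        exact_mod_cast this
      apply one_div_le_one_div_of_le hi0
      exact_mod_cast hi.2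
    have h2 : ∑ i ∈ Icc (2 * a + 1) (4 * a), (1 : ℚ) / (4 * a) ≤
        ∑ i ∈ Icc (2 * a + 1) (4 * a), (1 : ℚ) / i := by
      apply Finset.sum_le_sum
      intro i hi
      rw [Finset.mem_Icc] at hi
      have hi0 : (0 : ℚ) < i := by
        have : 0 < i := by omega
        exact_mod_cast this
      apply one_div_le_one_div_of_le hi0
      exact_mod_cast hi.2
    rw [Finset.sum_const, Nat.card_Icc, nsmul_eq_mul] at h1 h2
    have h3 : Icc a (4 * a) = Icc a (2 * a) ∪ Icc (2 * a + 1) (4 * a) := by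
      ext x
      simp only [Finset.mem_Icc, Finset.mem_union]
      omega
    have h4 : Disjoint (Icc a (2 * a)) (Icc (2 * a + 1) (4 * a)) := by
      rw [Finset.disjoint_left]
      intro x
      simp only [Finset.mem_Icc]
      omega
    rw [h3, Finset.sum_union h4]
    have h5 : ((2 * a + 1 - a : ℕ) : ℚ) = a + 1 := by
      have : 2 * a + 1 - a = a + 1 := by omega
      rw [this]; push_cast; ring
    have h6 : ((4 * a + 1 - (2 * a + 1) : ℕ) : ℚ) = 2 * a := by
      have : 4 * a + 1 - (2 * a + 1) = 2 * a := by omega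
      rw [this]; push_cast; ring
    rw [h5] at h1
    rw [h6] at h2
    have h7 : (2 * (a : ℚ)) * (1 / (4 * a)) = 1 / 2 := by field_simp; norm_num
    have h8 : (1 : ℚ) / 2 ≤ (a + 1) * (1 / (2 * a)) := by
      rw [mul_one_div, div_le_div_iff₀ (by norm_num) (by positivity)]
      linarith
    linarith
  classical
  let p : ℕ → Prop := fun n => 1 ≤ ∑ i ∈ Icc a n, (1 : ℚ) / i
  have hp : ∃ n, p n := ⟨4 * a, hex⟩
  have hfind : p (Nat.find hp) := Nat.find_spec hp
  have hle : Nat.find hp ≤ 4 * a := Nat.find_min' hp hex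
  have hgt : a < Nat.find hp := by
    by_contra h
    have h1 : Nat.find hp ≤ a := by omega
    have h2 : ∑ i ∈ Icc a (Nat.find hp), (1 : ℚ) / i ≤ 1 / 2 := by
      rcases Nat.lt_or_eq_of_le h1 with h3 | h3
      · rw [Finset.Icc_eq_empty (by omega)]
        simp
      · rw [h3, Finset.Icc_self, Finset.sum_singleton]
        apply one_div_le_one_div_of_le (by norm_num)
        exact_mod_cast ha
    have h3 : (1 : ℚ) ≤ 1 / 2 := hfind.trans h2
    norm_num at h3
  obtain ⟨b, hb⟩ : ∃ b, Nat.find hp = b + 1 := ⟨Nat.find hp - 1, by omega⟩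
  refine ⟨b, by omega, by omega, ?_, ?_⟩
  · have h1 : ¬ p b := Nat.find_min hp (by omega)
    exact not_le.1 h1
  · rw [← hb]
    exact hfind

/-- A block together with `m` further elements is a union of `m + 1` blocks. -/
lemma blocks_of_card {a b m : ℕ} (ha : 0 < a) (hab : a ≤ b) {T : Finset ℕ} (hT : T.card = m)
    (hpos : ∀ x ∈ T, 0 < x) : ∃ a' b' : Fin (m + 1) → ℕ, (∀ i, 0 < a' i ∧ a' i ≤ b' i) ∧
    Icc a b ∪ T = Finset.univ.biUnion (fun i => Finset.Icc (a' i) (b' i)) := by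
  have e : Fin m ≃ T := (T.equivFinOfCardEq hT).symm
  refine ⟨Fin.cons a (fun j => (e j : ℕ)), Fin.cons b (fun j => (e j : ℕ)), ?_, ?_⟩
  · intro i
    refine Fin.cases ?_ ?_ i
    · simp [ha, hab]
    · intro j
      simp [hpos _ (e j).2]
  · ext x
    simp only [Finset.mem_union, Finset.mem_Icc, Finset.mem_biUnion, Finset.mem_univ, true_and]
    constructor
    · rintro (h | h)
      · exact ⟨0, by simpa using h⟩
      · obtain ⟨j, hj⟩ := e.surjective ⟨x, h⟩
        exact ⟨j.succ, by simp [hj]⟩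
    · rintro ⟨i, hi⟩
      revert hi
      refine Fin.cases ?_ ?_ i
      · intro h
        left
        simpa using h
      · intro j h
        right
        simp only [Fin.cons_succ] at h
        have : x = (e j : ℕ) := le_antisymm h.2 h.1
        rw [this]
        exact (e j).2

/-- Putting the first block and an expansion of the rest together. -/
lemma assemble {a b N D P : ℕ} {B : ℝ} (ha : 0 < a) (hab : a ≤ b) (hP : 0 < P)
    (hD : P * (b + 1) ≤ D) (hsum : ∑ i ∈ Icc a b, (1 : ℚ) / i + (P : ℚ) / D = 1)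
    (h : Exp P D N B) : ∃ S, IsBlockRep (N + 1) S ∧ ∃ x ∈ S, B ≤ (x : ℝ) := by
  obtain ⟨T, h1, h2, h3, x, h4, h5⟩ := h
  have hT : ∀ z ∈ T, b + 1 ≤ z := by
    intro z hz
    exact Nat.le_of_mul_le_mul_left (hD.trans (h2 z hz)) hP
  refine ⟨Icc a b ∪ T, ⟨blocks_of_card ha hab h1 (fun z hz => by have := hT z hz; omega), ?_⟩, x,
    Finset.mem_union_right _ h4, h5⟩
  rw [Finset.sum_union, h3, hsum]
  rw [Finset.disjoint_left]
  intro z hz hz'
  have := hT z hz'
  rw [Finset.mem_Icc] at hz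
  omega

/-- The main estimate. -/
lemma main_estimate {a i n κ r : ℕ} (ha : 2 ≤ a) (hκ : 1 ≤ κ) (hi : 2 ^ κ * (4 * a) ≤ 2 ^ i)
    (hn : (4 * a) ^ (4 * a) ≤ 2 ^ n) (hr : r = i + n + 2) :
    ∃ S, IsBlockRep r S ∧ ∃ x ∈ S,
      ((a : ℝ) + 1) ^ ((1 - 1 / 2 ^ κ) * 2 ^ (i + n) : ℝ) ≤ (x : ℝ) := by
  obtain ⟨b, hab, hb4, hlt, hge⟩ := first_block ha
  -- the numerator
  obtain ⟨P, hPdef⟩ : ∃ P, P = b.factorial - ∑ i ∈ Icc a b, b.factorial / i := ⟨_, rfl⟩
  have hfac : (0 : ℚ) < b.factorial := by exact_mod_cast Nat.factorial_pos b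
  have hcast : ((∑ i ∈ Icc a b, b.factorial / i : ℕ) : ℚ) =
      b.factorial * ∑ i ∈ Icc a b, (1 : ℚ) / i := by
    rw [Nat.cast_sum, Finset.mul_sum]
    apply Finset.sum_congr rfl
    intro i hi
    rw [Finset.mem_Icc] at hi
    have hi0 : 0 < i := by omega
    rw [Nat.cast_div (Nat.dvd_factorial hi0 hi.2) (by positivity)]
    ring
  have hltn : (∑ i ∈ Icc a b, b.factorial / i) < b.factorial := by
    have : ((∑ i ∈ Icc a b, b.factorial / i : ℕ) : ℚ) < (b.factorial : ℕ) := by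
      rw [hcast]
      calc (b.factorial : ℚ) * ∑ i ∈ Icc a b, (1 : ℚ) / i < b.factorial * 1 := by gcongr
        _ = b.factorial := mul_one _
    exact_mod_cast this
  have hP0 : 0 < P := by omega
  have hPcast : (P : ℚ) = b.factorial * (1 - ∑ i ∈ Icc a b, (1 : ℚ) / i) := by
    rw [hPdef, Nat.cast_sub hltn.le, hcast]
    ring
  have hsum : ∑ i ∈ Icc a b, (1 : ℚ) / i + (P : ℚ) / (b.factorial : ℕ) = 1 := by
    rw [hPcast, mul_div_cancel_left₀ _ hfac.ne']
    ring
  have hPb : P * (b + 1) ≤ b.factorial := by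
    have h1 : Icc a (b + 1) = insert (b + 1) (Icc a b) := by
      ext x
      simp only [Finset.mem_Icc, Finset.mem_insert]
      omega
    rw [h1, Finset.sum_insert (by simp)] at hge
    have hb1 : (0 : ℚ) < (b : ℚ) + 1 := by positivity
    have h2 : 1 - ∑ i ∈ Icc a b, (1 : ℚ) / i ≤ 1 / ((b : ℚ) + 1) := by
      push_cast at hge
      linarith
    have h3 : (P : ℚ) * (b + 1) ≤ b.factorial := by
      rw [hPcast]
      calc (b.factorial : ℚ) * (1 - ∑ i ∈ Icc a b, (1 : ℚ) / i) * (b + 1)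
          ≤ b.factorial * (1 / ((b : ℚ) + 1)) * (b + 1) := by gcongr
        _ = b.factorial := by field_simp
    exact_mod_cast h3
  have hb2 : 2 ≤ b := by omega
  have hG : 2 ≤ b.factorial := by
    calc 2 = Nat.factorial 2 := rfl
      _ ≤ b.factorial := Nat.factorial_le hb2
  have hk : 2 ^ (Nat.log 2 b) ∣ b.factorial :=
    Nat.dvd_factorial (by positivity) (Nat.pow_log_le_self 2 (by omega))
  have hp : ∀ p : ℕ, p.Prime → p ∣ b.factorial → p ≤ 2 ^ (Nat.log 2 b + 1) := by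
    intro p hp hpb
    exact ((hp.dvd_factorial).1 hpb).trans (Nat.lt_pow_succ_log_self (by norm_num) b).le
  have hPG : P ≤ b.factorial := le_trans (Nat.le_mul_of_pos_right _ (by omega)) hPb
  have hfle : b.factorial ≤ b ^ b := Nat.factorial_le_pow b
  have hGn : b.factorial ≤ 2 ^ n := by
    calc b.factorial ≤ b ^ b := hfle
      _ ≤ (4 * a) ^ b := Nat.pow_le_pow_left (by omega) _
      _ ≤ (4 * a) ^ (4 * a) := Nat.pow_le_pow_right (by omega) (by omega)
      _ ≤ 2 ^ n := hn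
  have hY2 : (2 : ℝ) ≤ (b : ℝ) + 1 := by
    have : (2 : ℝ) ≤ b := by exact_mod_cast hb2
    linarith
  have hY0 : (0 : ℝ) < (b : ℝ) + 1 := by linarith
  -- `G ≤ Y ^ b`, `2 ^ κ * b ≤ 2 ^ i`
  have hGY : (b.factorial : ℝ) ≤ ((b : ℝ) + 1) ^ b := by
    calc (b.factorial : ℝ) ≤ (b : ℝ) ^ b := by exact_mod_cast hfle
      _ ≤ ((b : ℝ) + 1) ^ b := by gcongr; linarith
  have hbi : 2 ^ κ * b ≤ 2 ^ i := le_trans (Nat.mul_le_mul_left _ (by omega)) hi
  have h2b : 2 * b ≤ 2 ^ i := by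
    refine le_trans (Nat.mul_le_mul_right _ ?_) hbi
    calc 2 = 2 ^ 1 := rfl
      _ ≤ 2 ^ κ := Nat.pow_le_pow_right (by norm_num) hκ
  have hcond : ((b.factorial : ℕ) : ℝ) ^ 2 ≤ ((b : ℝ) + 1) ^ (2 ^ i) := by
    calc ((b.factorial : ℕ) : ℝ) ^ 2 ≤ (((b : ℝ) + 1) ^ b) ^ 2 := by gcongr
      _ = ((b : ℝ) + 1) ^ (2 * b) := by rw [← pow_mul, mul_comm]
      _ ≤ ((b : ℝ) + 1) ^ (2 ^ i) := pow_le_pow_right₀ (by linarith) h2b
  have hYP : ((b : ℝ) + 1) * P ≤ (b.factorial : ℕ) := by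
    rw [mul_comm]
    exact_mod_cast hPb
  have key := phaseA hk hp hG n i P b.factorial ((b : ℝ) + 1) hP0 dvd_rfl hPG
    (hPG.trans hGn) hY2 hYP hcond
  have hB : ((a : ℝ) + 1) ^ ((1 - 1 / 2 ^ κ) * 2 ^ (i + n) : ℝ) ≤
      (((b : ℝ) + 1) ^ (2 ^ i) / (b.factorial : ℕ)) ^ (2 ^ n) := by
    have hκ0 : (0 : ℝ) < 2 ^ κ := by positivity
    have h1κ : (1 : ℝ) / 2 ^ κ ≤ 1 := by
      rw [div_le_one hκ0]
      exact one_le_pow₀ (by norm_num)
    have h1 : ((b : ℝ) + 1) ^ ((1 - 1 / 2 ^ κ) * 2 ^ i : ℝ) ≤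
        ((b : ℝ) + 1) ^ (2 ^ i) / (b.factorial : ℕ) := by
      rw [le_div_iff₀ (by exact_mod_cast Nat.factorial_pos b)]
      have h2 : ((b : ℝ) + 1) ^ b ≤ ((b : ℝ) + 1) ^ ((1 / 2 ^ κ) * 2 ^ i : ℝ) := by
        rw [← Real.rpow_natCast]
        apply Real.rpow_le_rpow_of_exponent_le (by linarith)
        rw [one_div, inv_mul_eq_div, le_div_iff₀ hκ0, mul_comm]
        exact_mod_cast hbi
      calc ((b : ℝ) + 1) ^ ((1 - 1 / 2 ^ κ) * 2 ^ i : ℝ) * (b.factorial : ℕ)
          ≤ ((b : ℝ) + 1) ^ ((1 - 1 / 2 ^ κ) * 2 ^ i : ℝ) *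
              ((b : ℝ) + 1) ^ ((1 / 2 ^ κ) * 2 ^ i : ℝ) := by
            apply mul_le_mul_of_nonneg_left (hGY.trans h2) (by positivity)
        _ = ((b : ℝ) + 1) ^ (((2 ^ i : ℕ) : ℝ)) := by
            rw [← Real.rpow_add hY0]
            congr 1
            push_cast
            ring
        _ = ((b : ℝ) + 1) ^ (2 ^ i) := by rw [Real.rpow_natCast]
    calc ((a : ℝ) + 1) ^ ((1 - 1 / 2 ^ κ) * 2 ^ (i + n) : ℝ)
        ≤ ((b : ℝ) + 1) ^ ((1 - 1 / 2 ^ κ) * 2 ^ (i + n) : ℝ) := by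
          apply Real.rpow_le_rpow (by positivity)
          · have : (a : ℝ) ≤ b := by exact_mod_cast hab
            linarith
          · apply mul_nonneg (by linarith) (by positivity)
      _ = (((b : ℝ) + 1) ^ ((1 - 1 / 2 ^ κ) * 2 ^ i : ℝ)) ^ (2 ^ n) := by
          have h3 : ((1 - 1 / 2 ^ κ) * 2 ^ (i + n) : ℝ) =
              ((1 - 1 / 2 ^ κ) * 2 ^ i) * ((2 ^ n : ℕ) : ℝ) := by
            push_cast
            rw [pow_add]
            ring
          rw [h3, Real.rpow_mul_natCast hY0.le]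
      _ ≤ (((b : ℝ) + 1) ^ (2 ^ i) / (b.factorial : ℕ)) ^ (2 ^ n) := by
          apply pow_le_pow_left₀ (by positivity) h1
  have hrep := assemble (by omega) hab hP0 hPb hsum (key.mono hB)
  rw [hr]
  exact hrep

/-! ### Comparison with Sylvester's sequence -/

lemma s_succ {n : ℕ} (hn : 1 ≤ n) : s (n + 1) = s n ^ 2 - s n + 1 := by
  obtain ⟨m, rfl⟩ : ∃ m, n = m + 1 := ⟨n - 1, by omega⟩
  rfl

/-- `s (r + 1) - 1` is below `20 ^ (2 ^ (r - 2))`. -/
lemma s_lt : ∀ t : ℕ, s (t + 3) < 20 ^ (2 ^ t) := by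
  intro t
  induction t with
  | zero => decide
  | succ t ih =>
    rw [show t + 1 + 3 = (t + 3) + 1 by ring, s_succ (by omega)]
    have h1 : s (t + 3) ^ 2 - s (t + 3) + 1 ≤ s (t + 3) ^ 2 + 1 := by omega
    have h2 : 20 ^ (2 ^ (t + 1)) = (20 ^ (2 ^ t)) ^ 2 := by
      rw [← pow_mul, pow_succ]
    rw [h2]
    have h3 : s (t + 3) + 1 ≤ 20 ^ (2 ^ t) := ih
    have h4 : (s (t + 3) + 1) ^ 2 ≤ (20 ^ (2 ^ t)) ^ 2 := Nat.pow_le_pow_left h3 2
    have h5 : 0 < s (t + 3) := by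
      rw [show t + 3 = (t + 2) + 1 by ring, s_succ (by omega)]
      omega
    nlinarith

/-- The representation starting with `3, 4, 5, 6`. -/
lemma small_rep {r : ℕ} (hr : 2 ≤ r) : ∃ S, IsBlockRep r S ∧ ∃ x ∈ S,
    ((20 ^ (2 ^ (r - 2)) : ℕ) : ℝ) ≤ (x : ℝ) := by
  obtain ⟨t, rfl⟩ : ∃ t, r = t + 1 + 1 := ⟨r - 2, by omega⟩
  have h1 := exp_of_dvd (P := 1) (D := 20) t (by norm_num) (one_dvd _) (by norm_num)
  have h2 := assemble (a := 3) (b := 6) (N := t + 1) (D := 20) (P := 1) (by norm_num) (by norm_num)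
    (by norm_num) (by norm_num) (by
      rw [show Icc 3 6 = ({3, 4, 5, 6} : Finset ℕ) by decide]
      norm_num) h1
  obtain ⟨S, hS, x, hx, hB⟩ := h2
  refine ⟨S, hS, x, hx, ?_⟩
  have h3 : t + 1 + 1 - 2 = t := by omega
  rw [h3]
  push_cast
  simpa using hB

/-! ### The asymptotic bound -/

lemma eventually_small {δ : ℝ} (hδ : 0 < δ) :
    ∀ᶠ r : ℕ in Filter.atTop, 8 * ((Nat.log 2 r : ℝ) + 1) ≤ (r : ℝ) ^ δ := by
  have h1 : ∀ᶠ x : ℝ in Filter.atTop, ‖Real.log x‖ ≤ (1 / 32) * ‖x ^ δ‖ :=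
    (isLittleO_log_rpow_atTop hδ).def (by norm_num)
  have h2 : ∀ᶠ x : ℝ in Filter.atTop, (16 : ℝ) ≤ x ^ δ :=
    (tendsto_rpow_atTop hδ).eventually_ge_atTop 16
  have h3 := (tendsto_natCast_atTop_atTop (R := ℝ)).eventually (h1.and h2)
  filter_upwards [h3, Filter.eventually_ge_atTop 1] with r hr hr1
  obtain ⟨hr2, hr3⟩ := hr
  have hr0 : (0 : ℝ) < r := by exact_mod_cast hr1
  have h4 : (Nat.log 2 r : ℝ) * Real.log 2 ≤ Real.log r := by
    rw [← Real.log_pow]
    apply Real.log_le_log (by positivity)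
    exact_mod_cast Nat.pow_log_le_self 2 (by omega)
  have h5 : (0.5 : ℝ) < Real.log 2 := by
    have := Real.log_two_gt_d9
    linarith
  have h6 : (Nat.log 2 r : ℝ) * 0.5 ≤ Real.log r :=
    le_trans (mul_le_mul_of_nonneg_left h5.le (by positivity)) h4
  have h7 : Real.log r ≤ (1 / 32) * (r : ℝ) ^ δ := by
    have h8 : ‖(r : ℝ) ^ δ‖ = (r : ℝ) ^ δ := Real.norm_of_nonneg (by positivity)
    rw [h8] at hr2
    exact (Real.le_norm_self _).trans hr2
  linarith

lemma large {c : ℝ} (hc : c < 1 / 4) : ∃ r₀ : ℕ, ∀ r : ℕ, r₀ ≤ r →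
    ∃ S, IsBlockRep r S ∧ ∃ x ∈ S, (r : ℝ) ^ (c * 2 ^ r) ≤ (x : ℝ) := by
  obtain ⟨δ, hδdef⟩ : ∃ δ : ℝ, δ = min (1 / 2) ((1 - 4 * c) / 2) := ⟨_, rfl⟩
  have hδ0 : 0 < δ := by
    rw [hδdef]
    exact lt_min (by norm_num) (by linarith)
  have hδ1 : δ ≤ 1 / 2 := by rw [hδdef]; exact min_le_left _ _
  have hδ2 : δ ≤ (1 - 4 * c) / 2 := by rw [hδdef]; exact min_le_right _ _
  obtain ⟨κ, hκ1, hκ⟩ : ∃ κ : ℕ, 1 ≤ κ ∧ (1 : ℝ) / 2 ^ κ ≤ δ := by
    obtain ⟨κ, h⟩ := exists_pow_lt_of_lt_one hδ0 (by norm_num : (1 / 2 : ℝ) < 1)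
    refine ⟨κ + 1, by omega, ?_⟩
    rw [one_div, ← inv_pow, ← one_div, pow_succ]
    have : (0 : ℝ) ≤ (1 / 2) ^ κ := by positivity
    linarith
  obtain ⟨r₁, hr₁⟩ := Filter.eventually_atTop.1 (eventually_small hδ0)
  refine ⟨max r₁ (16 + 8 * κ), fun r hr => ?_⟩
  have hr1 : r₁ ≤ r := (le_max_left _ _).trans hr
  have hr2 : 16 + 8 * κ ≤ r := (le_max_right _ _).trans hr
  have hL := hr₁ r hr1
  obtain ⟨L, hLdef⟩ : ∃ L, L = Nat.log 2 r + 1 := ⟨_, rfl⟩
  have hLcast : (L : ℝ) = (Nat.log 2 r : ℝ) + 1 := by rw [hLdef]; push_cast; ring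
  rw [← hLcast] at hL
  have hrR : (16 : ℝ) ≤ r := by exact_mod_cast (by omega : 16 ≤ r)
  have hr0 : (0 : ℝ) < r := by linarith
  have hrL : r < 2 ^ L := by rw [hLdef]; exact Nat.lt_pow_succ_log_self (by norm_num) r
  have hL1 : 1 ≤ L := by omega
  have hsqrt : (r : ℝ) ^ δ ≤ (r : ℝ) ^ (1 / 2 : ℝ) :=
    Real.rpow_le_rpow_of_exponent_le (by linarith) hδ1
  have hsq : (r : ℝ) ^ (1 / 2 : ℝ) * (r : ℝ) ^ (1 / 2 : ℝ) = r := by
    rw [← Real.rpow_add hr0]
    norm_num
  have h4 : (4 : ℝ) ≤ (r : ℝ) ^ (1 / 2 : ℝ) := by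
    have h5 : ((16 : ℝ)) ^ (1 / 2 : ℝ) = 4 := by
      rw [show (16 : ℝ) = 4 ^ (2 : ℝ) by norm_num, ← Real.rpow_mul (by norm_num)]
      norm_num
    rw [← h5]
    exact Real.rpow_le_rpow (by norm_num) hrR (by norm_num)
  have h16 : 32 * L ≤ r := by
    have : (32 : ℝ) * L ≤ r := by
      have h6 : (32 : ℝ) * L ≤ 4 * (r : ℝ) ^ (1 / 2 : ℝ) := by linarith
      have h7 : 4 * (r : ℝ) ^ (1 / 2 : ℝ) ≤ (r : ℝ) ^ (1 / 2 : ℝ) * (r : ℝ) ^ (1 / 2 : ℝ) :=
        mul_le_mul_of_nonneg_right h4 (by positivity)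
      linarith
    exact_mod_cast this
  obtain ⟨a, hadef⟩ : ∃ a, a = r / (8 * L) := ⟨_, rfl⟩
  have hL8 : 0 < 8 * L := by omega
  have ha2 : 2 ≤ a := by
    rw [hadef, Nat.le_div_iff_mul_le hL8]
    omega
  have hale : 8 * L * a ≤ r := by rw [hadef]; exact Nat.mul_div_le r (8 * L)
  have halt : r < 8 * L * (a + 1) := by
    rw [hadef]
    exact Nat.lt_mul_div_succ r hL8
  have h8a : 8 * a ≤ r := by
    calc 8 * a = 8 * 1 * a := by ring
      _ ≤ 8 * L * a := by gcongr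
      _ ≤ r := hale
  obtain ⟨n, hn⟩ : ∃ n, r = (L + κ) + n + 2 := ⟨r - 2 - L - κ, by omega⟩
  have hcond1 : 2 ^ κ * (4 * a) ≤ 2 ^ (L + κ) := by
    rw [pow_add, mul_comm (2 ^ L)]
    exact Nat.mul_le_mul_left _ (by omega)
  have hcond2 : (4 * a) ^ (4 * a) ≤ 2 ^ n := by
    calc (4 * a) ^ (4 * a) ≤ (2 ^ L) ^ (4 * a) := Nat.pow_le_pow_left (by omega) _
      _ = 2 ^ (L * (4 * a)) := by rw [← pow_mul]
      _ ≤ 2 ^ n := by
        apply Nat.pow_le_pow_right (by norm_num)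
        have h9 : 8 * L * a = 2 * (L * (4 * a)) := by ring
        omega
  obtain ⟨S, hS, x, hx, hB⟩ := main_estimate ha2 hκ1 hcond1 hcond2 hn
  refine ⟨S, hS, x, hx, le_trans ?_ hB⟩
  have hx1 : (r : ℝ) ^ (1 - δ) ≤ (a : ℝ) + 1 := by
    have h10 : (r : ℝ) ≤ 8 * L * ((a : ℝ) + 1) := by exact_mod_cast halt.le
    have h11 : (r : ℝ) ^ (1 - δ) * (r : ℝ) ^ δ = r := by
      rw [← Real.rpow_add hr0]
      simp
    have h12 : (r : ℝ) ^ (1 - δ) * (r : ℝ) ^ δ ≤ ((a : ℝ) + 1) * (r : ℝ) ^ δ := by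
      rw [h11]
      calc (r : ℝ) ≤ 8 * L * ((a : ℝ) + 1) := h10
        _ = ((a : ℝ) + 1) * (8 * L) := by ring
        _ ≤ ((a : ℝ) + 1) * (r : ℝ) ^ δ := by gcongr
    exact le_of_mul_le_mul_right h12 (by positivity)
  have hpow : (2 : ℝ) ^ r = 4 * 2 ^ ((L + κ) + n) := by
    conv_lhs => rw [hn]
    rw [pow_add]
    ring
  have hexp : c * 2 ^ r ≤ (1 - δ) * ((1 - 1 / 2 ^ κ) * 2 ^ ((L + κ) + n)) := by
    have h13 : (0 : ℝ) < 2 ^ ((L + κ) + n) := by positivity
    have h14 : 4 * c ≤ (1 - δ) * (1 - 1 / 2 ^ κ) := by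
      have h15 : (1 - δ) * (1 - δ) ≤ (1 - δ) * (1 - 1 / 2 ^ κ) :=
        mul_le_mul_of_nonneg_left (by linarith) (by linarith)
      nlinarith
    calc c * 2 ^ r = (4 * c) * 2 ^ ((L + κ) + n) := by rw [hpow]; ring
      _ ≤ ((1 - δ) * (1 - 1 / 2 ^ κ)) * 2 ^ ((L + κ) + n) := by gcongr
      _ = (1 - δ) * ((1 - 1 / 2 ^ κ) * 2 ^ ((L + κ) + n)) := by ring
  calc (r : ℝ) ^ (c * 2 ^ r)
      ≤ (r : ℝ) ^ ((1 - δ) * ((1 - 1 / 2 ^ κ) * 2 ^ ((L + κ) + n))) :=
        Real.rpow_le_rpow_of_exponent_le (by linarith) hexp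
    _ = ((r : ℝ) ^ (1 - δ)) ^ ((1 - 1 / 2 ^ κ) * 2 ^ ((L + κ) + n) : ℝ) := by
        rw [← Real.rpow_mul hr0.le]
    _ ≤ ((a : ℝ) + 1) ^ ((1 - 1 / 2 ^ κ) * 2 ^ ((L + κ) + n) : ℝ) := by
        apply Real.rpow_le_rpow (by positivity) hx1
        apply mul_nonneg _ (by positivity)
        linarith

/-- For every `c < 1 / 4` there is `r₀` such that for every `r ≥ 2` there is an `r`-block
representation of `1` whose largest denominator is larger than `s (r + 1) - 1`, at least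
`20 ^ (2 ^ (r - 2))` and, if `r ≥ r₀`, at least `r ^ (c * 2 ^ r)`. -/
theorem result : ∀ c : ℝ, c < 1 / 4 → ∃ r₀ : ℕ, ∀ r : ℕ, 2 ≤ r → ∃ S : Finset ℕ,
    IsBlockRep r S ∧ ∃ x ∈ S, s (r + 1) - 1 < x ∧ 20 ^ (2 ^ (r - 2)) ≤ x ∧
      (r₀ ≤ r → (r : ℝ) ^ (c * 2 ^ r) ≤ (x : ℝ)) := by
  intro c hc
  obtain ⟨r₀, h⟩ := large hc
  refine ⟨r₀, fun r hr => ?_⟩
  have hs : s (r + 1) - 1 < 20 ^ (2 ^ (r - 2)) := by
    obtain ⟨t, rfl⟩ : ∃ t, r = t + 2 := ⟨r - 2, by omega⟩
    have h1 := s_lt t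
    have h2 : t + 2 - 2 = t := by omega
    rw [h2, show t + 2 + 1 = t + 3 by ring]
    omega
  obtain ⟨S, hS, x, hx, hB⟩ := small_rep hr
  have hB' : 20 ^ (2 ^ (r - 2)) ≤ x := by exact_mod_cast hB
  by_cases hr0 : r₀ ≤ r
  · obtain ⟨S', hS', x', hx', hB2⟩ := h r hr0
    rcases le_total x x' with hxx | hxx
    · exact ⟨S', hS', x', hx', by omega, by omega, fun _ => hB2⟩
    · exact ⟨S, hS, x, hx, by omega, hB', fun _ => hB2.trans (by exact_mod_cast hxx)⟩
  · exact ⟨S, hS, x, hx, by omega, hB', fun h => absurd h hr0⟩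

end Pool.Agent.Results.MP_5e6778_nt.BlockGrowth
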